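import Pool.Agent.N139.FG.Tel
import Pool.Agent.N139.FG.Lf
import Pool.Agent.N139.FG.Nil
import Pool.Agent.N667.FG.CHAR
import Pool.Agent.N738.FG.AFG
import Pool.Agent.N331.FG.REG
import Pool.Agent.N513.FG.PRJ
import Pool.Agent.N36.FG.LOW

set_option autoImplicit false

/-!
# MP_95ce84_an: finite generation of C*-stable groups

Let `G` be a countable group with semiprojective `C*(G)`. If `D` is a separable C*-algebra with an
increasing sequence `D_n` of C*-subalgebras and `u : G → D` is a representation with values in the
union, semiprojectivity applied to the mapping telescope gives a path of representations from `u` to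
a representation into some `D_n`. For `D = C(Hom(G, 𝕋))` and homotopy lifting this shows that only
finitely many characters of `G` are trivial on a suitable finite set, so the abelianization is
finitely generated; for the reduced group C*-algebra of a locally finite group and its trace it
shows that the orders of the finite subgroups are bounded.
-/

namespace Pool.Agent.Results.MP_95ce84_an.StableAbelianizationFG

open N139.FG

/-- Every countable C*-stable group has a finitely generated abelianization; every countable
nilpotent C*-stable group is finitely generated; every countable locally finite C*-stable group is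
finite. -/
theorem result :
    (∀ (G : Type) [Group G] [Countable G], CStarStable G → Group.FG (Abelianization G)) ∧
    (∀ (G : Type) [Group G] [Countable G], CStarStable G → Group.IsNilpotent G → Group.FG G) ∧
    (∀ (G : Type) [Group G] [Countable G], CStarStable G →
      (∀ S : Finset G, Finite (Subgroup.closure (S : Set G))) → Finite G) := by
  have hA : ∀ (G : Type) [Group G] [Countable G], CStarStable G →
      Group.FG (Abelianization G) := by
    intro G _ _ hst
    obtain ⟨F, hF⟩ := Pool.Agent.N667.FGC.t_CHAR t_TEL G hst
    exact Pool.Agent.N738.FG.t_AFG G F hF
  refine ⟨hA, ?_, ?_⟩
  · intro G _ _ hst hnil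
    exact fg_of_abelianization_fg (hA G hst)
  · exact t_LF t_TEL Pool.Agent.N331.FG.t_REG Pool.Agent.N513.FG.t_PRJ Pool.Agent.N36.FG.t_LOW

end Pool.Agent.Results.MP_95ce84_an.StableAbelianizationFG
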